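import Pool.Agent.N569.VT.Defs

/-!
# VT6: the pieces of the diagram
-/

set_option autoImplicit false

namespace Pool.Agent.N300.VT

open Pool.Agent.H891R2.Jones Pool.Agent.W639.RB Pool.Agent.TH561 Pool.Agent.N569.TW Pool.Agent.N569.VT
  Finset LaurentPolynomial

section quot

variable {Q : Type} [Finite Q]

/-- one more pair of joined points decreases the number of the classes at most by one -/
theorem card_quot_or (R : Q → Q → Prop) (a b : Q) :
    Nat.card (Quot R) ≤ Nat.card (Quot (fun p q => R p q ∨ (p = a ∧ q = b))) + 1 := by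
  classical
  have hf : ∀ p q, (R p q ∨ (p = a ∧ q = b)) →
      (if Quot.mk R p = Quot.mk R b then Quot.mk R a else Quot.mk R p) =
      (if Quot.mk R q = Quot.mk R b then Quot.mk R a else Quot.mk R q) := by
    intro p q h
    rcases h with h | ⟨h1, h2⟩
    · rw [Quot.sound h]
    · rw [h1, h2, if_pos rfl]
      split_ifs <;> rfl
  have hg : Function.Surjective (fun o : Option (Quot (fun p q => R p q ∨ (p = a ∧ q = b))) =>
      o.elim (Quot.mk R b) (Quot.lift
        (fun p => if Quot.mk R p = Quot.mk R b then Quot.mk R a else Quot.mk R p) hf)) := by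
    intro y
    obtain ⟨p, rfl⟩ := Quot.exists_rep y
    by_cases h : Quot.mk R p = Quot.mk R b
    · exact ⟨none, h.symm⟩
    · exact ⟨some (Quot.mk _ p), if_neg h⟩
  have h1 := Nat.card_le_card_of_surjective _ hg
  rwa [Finite.card_option] at h1

/-- several pairs -/
theorem card_quot_list (R : Q → Q → Prop) (r : List (Q × Q)) :
    Nat.card (Quot R) ≤ Nat.card (Quot (fun p q => R p q ∨ (p, q) ∈ r)) + r.length := by
  induction r with
  | nil => simp
  | cons x r ih =>
    have h := card_quot_or (fun p q => R p q ∨ (p, q) ∈ r) x.1 x.2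
    have e : (fun p q => (R p q ∨ (p, q) ∈ r) ∨ (p = x.1 ∧ q = x.2)) =
        fun p q => R p q ∨ (p, q) ∈ x :: r := by
      funext p q
      apply propext
      rw [List.mem_cons, Prod.ext_iff]
      tauto
    rw [e] at h
    rw [List.length_cons]
    omega

end quot

variable {m : ℕ}

/-- the column of a point of a word -/
def col : (L : List ℕ) → (Lk.word m L).Q → Fin m
  | [] => fun j => j
  | _ :: L => Sum.elim (Sum.elim id id) (col L)

theorem col_l (L : List ℕ) (j : Fin m) : col L ((Lk.word m L).l j) = j := by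
  cases L with
  | nil => rfl
  | cons i L => rfl

theorem col_u (L : List ℕ) (j : Fin m) : col L ((Lk.word m L).u j) = j := by
  induction L with
  | nil => rfl
  | cons i L ih => exact ih

theorem col_R (L : List ℕ) : ∀ p q, (Lk.word m L).R p q → col L p = col L q ∨
    ∃ i ∈ L, ∃ h : i + 1 < m, col L p = ⟨i, Nat.lt_of_succ_lt h⟩ ∧ col L q = ⟨i+1, h⟩ := by
  induction L with
  | nil => exact fun p q h => False.elim h
  | cons i L ih =>
    intro p q h
    rcases h with ⟨a, b, rfl, rfl, h⟩ | ⟨a, b, rfl, rfl, h⟩ | ⟨j, rfl, rfl⟩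
    · rcases h with ⟨h1, rfl, rfl⟩ | ⟨h1, rfl, rfl⟩ | ⟨j, _, _, rfl, rfl⟩
      · exact Or.inr ⟨i, List.mem_cons_self, h1, rfl, rfl⟩
      · exact Or.inr ⟨i, List.mem_cons_self, h1, rfl, rfl⟩
      · exact Or.inl rfl
    · rcases ih a b h with h1 | ⟨k, hk, h1, h2, h3⟩
      · exact Or.inl h1
      · exact Or.inr ⟨k, List.mem_cons_of_mem _ hk, h1, h2, h3⟩
    · exact Or.inl (col_l L j).symm

/-- the relation of the whole closed diagram with the smoothings of type `A` and the trivial word -/
def R0 (O : Outer m) (p q : O.P) : Prop :=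
  (⟨O.arcs, O.crossings⟩ : Diagram O.P).Joined (fun _ => true) p q ∨ ∃ j, p = O.lower j ∧ q = O.upper j

/-- VT6: there is a number `κ` (of the pieces of the whole diagram) such that every state has at least `κ` pieces,
and the state without `B`-smoothings has at most `κ + n + #C` -/
theorem pieces (_hm : 0 < m) (O : Outer m) (C : Finset ℕ) (hCm : ∀ i ∈ C, i + 1 < m) : ∃ κ : ℕ,
    (∀ (σ : Fin O.crossings.length → Bool) (L : List ℕ), (∀ i ∈ L, i ∈ C) → κ ≤ (ofO O σ).lam L) ∧
    (ofO O (fun _ => true)).lam [] ≤ κ + O.crossings.length + #C := by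
  classical
  set r : List (O.P × O.P) := O.crossings.map (fun x => (x.b, x.c)) ++
    C.attach.toList.map (fun i => (O.lower ⟨i.1, Nat.lt_of_succ_lt (hCm i.1 i.2)⟩,
      O.lower ⟨i.1+1, hCm i.1 i.2⟩)) with hr
  have hrl : r.length = O.crossings.length + #C := by
    rw [hr, List.length_append, List.length_map, List.length_map, Finset.length_toList,
      Finset.card_attach]
  set G : O.P → O.P → Prop := fun p q => R0 O p q ∨ (p, q) ∈ r with hG
  refine ⟨Nat.card (Quot G), ?_, ?_⟩
  · intro σ L hL
    have hJ : ∀ p q, (ofO O σ).R p q → Quot.mk G p = Quot.mk G q := by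
      intro p q h
      rcases h with h | ⟨i, hi⟩
      · exact Quot.sound (Or.inl (Or.inl (Or.inl h)))
      · have hab : Quot.mk G (O.crossings[i]).a = Quot.mk G (O.crossings[i]).b :=
          Quot.sound (Or.inl (Or.inl (Or.inr ⟨i, Or.inl ⟨rfl, rfl⟩⟩)))
        have hcd : Quot.mk G (O.crossings[i]).c = Quot.mk G (O.crossings[i]).d :=
          Quot.sound (Or.inl (Or.inl (Or.inr ⟨i, Or.inr ⟨rfl, rfl⟩⟩)))
        have hbc : Quot.mk G (O.crossings[i]).b = Quot.mk G (O.crossings[i]).c := by
          refine Quot.sound (Or.inr ?_)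
          rw [hr, List.mem_append]
          left
          exact List.mem_map.2 ⟨O.crossings[i], List.getElem_mem _, rfl⟩
        split_ifs at hi with hs
        · rcases hi with ⟨h1, h2⟩ | ⟨h1, h2⟩
          · rw [h1, h2]; exact hab
          · rw [h1, h2]; exact hcd
        · rcases hi with ⟨h1, h2⟩ | ⟨h1, h2⟩
          · rw [h1, h2]; exact hbc
          · rw [h1, h2]; exact (hab.trans (hbc.trans hcd)).symm
    have hf : ∀ p q : ((ofO O σ).mul (Lk.word m L)).Q, ((ofO O σ).mul (Lk.word m L)).Rc p q →
        (Sum.elim (fun p => Quot.mk G p) (fun q => Quot.mk G (O.lower (col L q))) :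
          O.P ⊕ (Lk.word m L).Q → Quot G) p =
        (Sum.elim (fun p => Quot.mk G p) (fun q => Quot.mk G (O.lower (col L q))) :
          O.P ⊕ (Lk.word m L).Q → Quot G) q := by
      intro p q h
      rcases h with (⟨a, b, rfl, rfl, h⟩ | ⟨a, b, rfl, rfl, h⟩ | ⟨j, rfl, rfl⟩) | ⟨j, rfl, rfl⟩
      · exact hJ a b h
      · rcases col_R L a b h with h1 | ⟨k, hk, h1, h2, h3⟩
        · change Quot.mk G (O.lower (col L a)) = Quot.mk G (O.lower (col L b))
          rw [h1]
        · change Quot.mk G (O.lower (col L a)) = Quot.mk G (O.lower (col L b))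
          rw [h2, h3]
          refine Quot.sound (Or.inr ?_)
          rw [hr, List.mem_append]
          right
          exact List.mem_map.2 ⟨(⟨k, hL k hk⟩ : {x // x ∈ C}), Finset.mem_toList.2 (Finset.mem_attach _ _), rfl⟩
      · change Quot.mk G (O.lower j) = Quot.mk G (O.lower (col L ((Lk.word m L).l j)))
        rw [col_l]
      · change Quot.mk G (O.upper j) = Quot.mk G (O.lower (col L ((Lk.word m L).u j)))
        rw [col_u]
        have h1 : G (O.lower j) (O.upper j) := Or.inl (Or.inr ⟨j, rfl, rfl⟩)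
        exact (Quot.sound h1).symm
    have hs : Function.Surjective (Quot.lift _ hf) := by
      intro y
      obtain ⟨p, rfl⟩ := Quot.exists_rep y
      exact ⟨Quot.mk _ (Sum.inl p), rfl⟩
    exact Nat.card_le_card_of_surjective _ hs
  · have h1 := card_quot_list (R0 O) r
    rw [hrl] at h1
    have hf : ∀ p q, R0 O p q →
        Quot.mk ((ofO O (fun _ => true)).mul (Lk.word m [])).Rc (Sum.inl p) =
        Quot.mk ((ofO O (fun _ => true)).mul (Lk.word m [])).Rc (Sum.inl q) := by
      intro p q h
      rcases h with h | ⟨j, rfl, rfl⟩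
      · exact Quot.sound (Or.inl (Or.inl ⟨p, q, rfl, rfl, h⟩))
      · have e1 : Quot.mk ((ofO O (fun _ => true)).mul (Lk.word m [])).Rc (Sum.inl (O.lower j)) =
            Quot.mk ((ofO O (fun _ => true)).mul (Lk.word m [])).Rc (Sum.inr j) :=
          Quot.sound (Or.inl (Or.inr (Or.inr ⟨j, rfl, rfl⟩)))
        have e2 : Quot.mk ((ofO O (fun _ => true)).mul (Lk.word m [])).Rc (Sum.inl (O.upper j)) =
            Quot.mk ((ofO O (fun _ => true)).mul (Lk.word m [])).Rc (Sum.inr j) :=
          Quot.sound (Or.inr ⟨j, rfl, rfl⟩)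
        rw [e1, e2]
    have hs : Function.Surjective (Quot.lift _ hf) := by
      intro y
      obtain ⟨p, rfl⟩ := Quot.exists_rep y
      rcases p with p | j
      · exact ⟨Quot.mk _ p, rfl⟩
      · refine ⟨Quot.mk _ (O.lower j), ?_⟩
        exact Quot.sound (Or.inl (Or.inr (Or.inr ⟨j, rfl, rfl⟩)))
    have h2 := Nat.card_le_card_of_surjective _ hs
    have h3 : (ofO O (fun _ => true)).lam [] ≤ Nat.card (Quot (R0 O)) := h2
    have h4 : Nat.card (Quot fun p q => R0 O p q ∨ (p, q) ∈ r) = Nat.card (Quot G) := rfl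
    omega

end Pool.Agent.N300.VT
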